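import Pool.Agent.Helper57.ZF.Goals

/-!
Project ZF (MP_ef0af8_co), packet CNT.
-/

set_option autoImplicit false

namespace Pool.Agent.Helper5.ZF

open Pool.Agent.Helper57.ZF

open scoped Classical in
/-- The induction. -/
theorem cnt_ind {α β : Type} (F : Finset β) (R : α → β → Prop) (k : ℕ) (T : Finset α) :
    (∀ p ∈ T, k ≤ cnt F (R p)) → T.card ≤ k → Lin T F R →
    T.card * (2 * k - T.card + 1) ≤ 2 * (F.filter fun f => ∃ p ∈ T, R p f).card := by
  induction T using Finset.induction_on with
  | empty => intro _ _ _; simp
  | insert p T hp ih =>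
    intro hk hT hL
    rw [Finset.card_insert_of_notMem hp] at hT ⊢
    have ih' := ih (fun q hq => hk q (Finset.mem_insert_of_mem hq)) (by omega)
      (fun a ha b hb hab => hL a (Finset.mem_insert_of_mem ha) b (Finset.mem_insert_of_mem hb) hab)
    have h1 : k ≤ (F.filter (R p)).card := by
      have := hk p (Finset.mem_insert_self _ _)
      rwa [cnt_eq] at this
    -- the members through `p` which are on a point of `T`
    have h2 : (F.filter fun f => R p f ∧ ∃ q ∈ T, R q f).card ≤ T.card := by
      have h3 : (F.filter fun f => R p f ∧ ∃ q ∈ T, R q f) ⊆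
          T.biUnion fun q => F.filter fun f => R p f ∧ R q f := by
        intro f hf
        rw [Finset.mem_filter] at hf
        obtain ⟨hfF, hpf, q, hq, hqf⟩ := hf
        exact Finset.mem_biUnion.2 ⟨q, hq, Finset.mem_filter.2 ⟨hfF, hpf, hqf⟩⟩
      refine (Finset.card_le_card h3).trans ?_
      refine (Finset.card_biUnion_le).trans ?_
      refine (Finset.sum_le_card_nsmul _ _ 1 fun q hq => ?_).trans (by simp)
      have hne : p ≠ q := fun h => hp (h ▸ hq)
      have := hL p (Finset.mem_insert_self _ _) q (Finset.mem_insert_of_mem hq) hne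
      rwa [cnt_eq] at this
    have h4 : (F.filter fun f => ∃ q ∈ T, R q f).card + (F.filter (R p)).card ≤
        (F.filter fun f => ∃ q ∈ insert p T, R q f).card +
          (F.filter fun f => R p f ∧ ∃ q ∈ T, R q f).card := by
      have h5 : (F.filter fun f => ∃ q ∈ insert p T, R q f) =
          (F.filter fun f => ∃ q ∈ T, R q f) ∪ F.filter (R p) := by
        ext f
        simp only [Finset.mem_filter, Finset.mem_union, Finset.mem_insert, exists_eq_or_imp]
        rw [← and_or_left, or_comm]
      have h6 : (F.filter fun f => R p f ∧ ∃ q ∈ T, R q f) =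
          (F.filter fun f => ∃ q ∈ T, R q f) ∩ F.filter (R p) := by
        ext f
        simp only [Finset.mem_filter, Finset.mem_inter]
        tauto
      rw [h5, h6]
      exact (Finset.card_union_add_card_inter _ _).ge
    set a := (F.filter fun f => ∃ q ∈ T, R q f).card
    set b := (F.filter fun f => ∃ q ∈ insert p T, R q f).card
    set s := T.card
    have h7 : a + (k - s) ≤ b := by omega
    obtain ⟨d, rfl⟩ : ∃ d, k = s + 1 + d := ⟨k - (s + 1), by omega⟩
    have e1 : 2 * (s + 1 + d) - s + 1 = s + 2 * d + 3 := by omega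
    have e2 : 2 * (s + 1 + d) - (s + 1) + 1 = s + 2 * d + 2 := by omega
    have e3 : s + 1 + d - s = d + 1 := by omega
    rw [e1] at ih'
    rw [e2]
    rw [e3] at h7
    nlinarith

theorem CNT : G_CNT := by
  classical
  intro α β T F R k hk hT hL
  have h := cnt_ind F R k T hk hT hL
  rw [cnt_eq]
  refine le_trans ?_ (le_trans h (le_of_eq ?_))
  · exact Nat.mul_le_mul_left _ (by omega)
  · congr 2

end Pool.Agent.Helper5.ZF
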